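import Pool.Agent.H93.CS.Good
import Pool.Agent.H94.Geo.Good

set_option autoImplicit false

/-!
# The classes of points at finite distance

In a space with an extended distance the points at finite distance from a given point form a
metric space, which is open and closed. In a closed Riemannian manifold these classes are the
connected components.
-/

open Metric Set Manifold Bundle
open Pool.Agent.H24.Near (Sol)
open scoped ContDiff Topology

noncomputable section

namespace Pool.Agent.H93.CS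

section

variable {M : Type*} [EMetricSpace M]

/-- The points at finite distance from `x₀`. -/
def Cls (x₀ : M) : Type _ := {y : M // y ∈ eball x₀ ⊤}

/-- The inclusion. -/
def Cls.val {x₀ : M} (y : Cls x₀) : M := Subtype.val y

lemma Cls.edist_lt {x₀ : M} (y : Cls x₀) : edist y.val x₀ < ⊤ := y.2

lemma Cls.ext {x₀ : M} {x y : Cls x₀} (h : x.val = y.val) : x = y := Subtype.ext h

instance instMetricSpaceCls (x₀ : M) : MetricSpace (Cls x₀) :=
  EMetricSpace.toMetricSpace (α := {y : M // y ∈ eball x₀ ⊤}) fun x y => by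
    have hx : edist (x : M) x₀ < ⊤ := x.2
    have hy : edist (y : M) x₀ < ⊤ := y.2
    have h := edist_triangle_right (x : M) y x₀
    exact (h.trans_lt (ENNReal.add_lt_top.2 ⟨hx, hy⟩)).ne

lemma edist_cls {x₀ : M} (x y : Cls x₀) : edist x y = edist x.val y.val := rfl

lemma dist_cls {x₀ : M} (x y : Cls x₀) : dist x y = (edist x.val y.val).toReal := rfl

lemma mem_ball_cls {x₀ : M} (x y : Cls x₀) (r : ℝ) : x ∈ ball y r ↔ x.val ∈ disc y.val r := by
  rw [← Metric.eball_ofReal]
  exact Iff.rfl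

/-- A point at finite distance from a point of the class. -/
def Cls.mk' {x₀ : M} (y : Cls x₀) (z : M) (h : edist z y.val < ⊤) : Cls x₀ :=
  ⟨z, (edist_triangle z y.val x₀).trans_lt (ENNReal.add_lt_top.2 ⟨h, y.edist_lt⟩)⟩

lemma Cls.mk'_val {x₀ : M} (y : Cls x₀) (z : M) (h : edist z y.val < ⊤) :
    (y.mk' z h).val = z := rfl

instance instCompactSpaceCls [CompactSpace M] (x₀ : M) : CompactSpace (Cls x₀) :=
  isCompact_iff_compactSpace.1 (isClosed_eball_top (x := x₀)).isCompact

lemma continuous_val (x₀ : M) : Continuous (fun y : Cls x₀ => y.val) :=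
  continuous_subtype_val (p := fun y : M => y ∈ eball x₀ ⊤)

/-- The restrictions of the functions in `P` which do not vanish identically on the class. -/
def PK (P : ℝ → (M → ℝ) → Prop) (x₀ : M) (lam : ℝ) (ψ : Cls x₀ → ℝ) : Prop :=
  (∃ x, ψ x ≠ 0) ∧ ∃ φ, P lam φ ∧ ∀ y, ψ y = φ y.val

theorem cls_goodChart {P : ℝ → (M → ℝ) → Prop} {x₀ : M} (x : Cls x₀)
    (G : GoodChart P x.val) : Nonempty (Pool.Agent.H94.Geo.GoodChart (PK P x₀) x) := by
  classical
  have hfin : ∀ a ∈ closedBall (0 : ℝ × ℝ) 9, edist (G.Φ a) x.val < ⊤ := by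
    intro a ha
    have h := G.lip a ha 0 (mem_closedBall_self (by norm_num))
    rw [G.center] at h
    exact h.trans_lt ENNReal.ofReal_lt_top
  set F : ℝ × ℝ → Cls x₀ := fun a =>
    if h : a ∈ closedBall (0 : ℝ × ℝ) 9 then x.mk' (G.Φ a) (hfin a h) else x with hF
  have hval : ∀ a ∈ closedBall (0 : ℝ × ℝ) 9, (F a).val = G.Φ a := by
    intro a ha
    rw [hF]
    simp only [ha, dif_pos]
    rfl
  have hκ := G.one_le_κ
  refine ⟨⟨F, G.κ, G.W, G.one_le_κ, G.one_le_W, ?_, ?_, ?_, ?_⟩⟩
  · apply Cls.ext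
    rw [hval 0 (mem_closedBall_self (by norm_num)), G.center]
  · intro a ha b hb
    rw [dist_cls, hval a ha, hval b hb]
    exact ENNReal.toReal_le_of_le_ofReal (by positivity) (G.lip a ha b hb)
  · intro a ha s hs hs1 y hy
    have ha9 : a ∈ closedBall (0 : ℝ × ℝ) 9 := closedBall_subset_closedBall (by norm_num) ha
    rw [mem_ball_cls, hval a ha9] at hy
    obtain ⟨b, hb, hby⟩ := G.surj a ha s hs hs1 hy
    refine ⟨b, hb, Cls.ext ?_⟩
    rw [hval b _, hby]
    rw [mem_closedBall] at ha hb ⊢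
    have := dist_triangle b a (0 : ℝ × ℝ)
    linarith
  · rintro N hN lam hlam hle ψ ⟨-, φ, hφ, hψ⟩
    obtain ⟨q, u, hsol, hu⟩ := G.sol N hN lam hlam hle φ hφ
    refine ⟨q, u, hsol, fun a ha => ?_⟩
    rw [hu a ha, hψ, hval a ha]

end

section

variable {M : Type*} [EMetricSpace M] [ChartedSpace Plane M] [IsManifold (𝓡 2) ∞ M]
  [RiemannianBundle (fun x : M => TangentSpace (𝓡 2) x)] [IsRiemannianManifold (𝓡 2) M]

/-- The classes of a Riemannian manifold are connected. -/
theorem isPreconnected_cls (x₀ : M) : IsPreconnected (eball x₀ ⊤) := by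
  refine isPreconnected_of_forall_pair fun x hx y hy => ?_
  have hxy : edist x y < ⊤ := (edist_triangle_right x y x₀).trans_lt
    (ENNReal.add_lt_top.2 ⟨hx, hy⟩)
  rw [IsRiemannianManifold.out (I := 𝓡 2) x y] at hxy
  obtain ⟨γ, h0, h1, hγ, -⟩ := exists_lt_of_riemannianEDist_lt hxy
  have hpre : IsPreconnected (γ '' Set.Icc 0 1) := isPreconnected_Icc.image γ hγ.continuousOn
  have hx' : x ∈ γ '' Set.Icc 0 1 := ⟨0, by simp, h0⟩
  refine ⟨γ '' Set.Icc 0 1, ?_, hx', ⟨1, by simp, h1⟩, hpre⟩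
  exact hpre.subset_isClopen ⟨isClosed_eball_top, isOpen_eball⟩ ⟨x, hx', hx⟩

theorem preconnectedSpace_cls (x₀ : M) : PreconnectedSpace (Cls x₀) :=
  isPreconnected_iff_preconnectedSpace.1 (isPreconnected_cls x₀)

end

end Pool.Agent.H93.CS
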