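import Pool.Agent.H24.Near.Defs
import Pool.Agent.H93.CS.Defs

set_option autoImplicit false

/-!
# Normalised charts of a surface with an extended distance
-/

open Metric
open Pool.Agent.H24.Near (Sol)

noncomputable section

namespace Pool.Agent.H93.CS

/-- A normalised chart at the point `x` for the eigenfunctions of a surface: `P lam φ` stands for
`φ is an eigenfunction for lam`. Squares are closed balls of the maximum norm of `ℝ × ℝ`. -/
structure GoodChart {M : Type*} [EMetricSpace M] (P : ℝ → (M → ℝ) → Prop) (x : M) where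
  /-- the parametrisation -/
  Φ : ℝ × ℝ → M
  /-- the distortion -/
  κ : ℝ
  /-- the bound for the conformal factor -/
  W : ℝ
  one_le_κ : 1 ≤ κ
  one_le_W : 1 ≤ W
  center : Φ 0 = x
  lip : ∀ a ∈ closedBall (0 : ℝ × ℝ) 9, ∀ b ∈ closedBall (0 : ℝ × ℝ) 9,
    edist (Φ a) (Φ b) ≤ ENNReal.ofReal (κ * dist a b)
  surj : ∀ a ∈ closedBall (0 : ℝ × ℝ) 1, ∀ s, 0 < s → s ≤ 1 →
    disc (Φ a) (s / κ) ⊆ Φ '' closedBall a s
  sol : ∀ N : ℝ, 1 ≤ N → ∀ lam : ℝ, 0 < lam → lam ≤ N ^ 2 → ∀ φ : M → ℝ, P lam φ →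
    ∃ q u : ℝ × ℝ → ℝ, Sol q u ((W * N) ^ 2) (closedBall 0 9) ∧
      ∀ a ∈ closedBall (0 : ℝ × ℝ) 9, u a = φ (Φ a)

end Pool.Agent.H93.CS
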