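import Pool.Agent.H93.CS.Defs

set_option autoImplicit false

/-!
# The Laplace-Beltrami operator in isothermal coordinates
-/

open Manifold Bundle
open scoped ContDiff Topology

noncomputable section

namespace Pool.Agent.H93.CS

section

variable {M : Type*} [TopologicalSpace M] [ChartedSpace Plane M] [IsManifold (𝓡 2) ∞ M]
  [RiemannianBundle (fun x : M => TangentSpace (𝓡 2) x)]

/-- In an isothermal chart the Laplace-Beltrami operator is the Euclidean one, divided by the
conformal factor: near `p` the matrix `√(det g) g⁻¹` is the identity (no smoothness of `φ` is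
needed: `pder` only depends on the germ of the function). -/
theorem lap_isothermal {e : OpenPartialHomeomorph M Plane} {w : Plane → ℝ}
    (hw : ∀ p ∈ e.target, 0 < w p ∧ coef e p = w p • (1 : Matrix (Fin 2) (Fin 2) ℝ))
    (φ : M → ℝ) {p : Plane} (hp : p ∈ e.target) :
    lap e φ p = (w p)⁻¹ * (pder 0 (pder 0 fun y => φ (e.symm y)) p +
      pder 1 (pder 1 fun y => φ (e.symm y)) p) := by
  have hdet : ∀ q ∈ e.target, √(coef e q).det = w q := by
    intro q hq
    rw [(hw q hq).2, Matrix.det_smul, Matrix.det_one, mul_one, Fintype.card_fin,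
      Real.sqrt_sq (hw q hq).1.le]
  have hmat : ∀ q ∈ e.target, ∀ i j, √(coef e q).det * (coef e q)⁻¹ i j =
      (1 : Matrix (Fin 2) (Fin 2) ℝ) i j := by
    intro q hq i j
    have h0 : w q ≠ 0 := (hw q hq).1.ne'
    have hinv : (coef e q)⁻¹ = (w q)⁻¹ • (1 : Matrix (Fin 2) (Fin 2) ℝ) := by
      apply Matrix.inv_eq_right_inv
      rw [(hw q hq).2, Matrix.smul_mul, Matrix.mul_smul, Matrix.one_mul, smul_smul,
        mul_inv_cancel₀ h0, one_smul]
    rw [hdet q hq, hinv, Matrix.smul_apply, smul_eq_mul, ← mul_assoc, mul_inv_cancel₀ h0, one_mul]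
  have hev : ∀ i j, pder i (fun q => √(coef e q).det * (coef e q)⁻¹ i j *
      pder j (fun y => φ (e.symm y)) q) p =
      (1 : Matrix (Fin 2) (Fin 2) ℝ) i j * pder i (pder j fun y => φ (e.symm y)) p := by
    intro i j
    have h1 : (fun q => √(coef e q).det * (coef e q)⁻¹ i j * pder j (fun y => φ (e.symm y)) q)
        =ᶠ[𝓝 p] fun q => (1 : Matrix (Fin 2) (Fin 2) ℝ) i j * pder j (fun y => φ (e.symm y)) q := by
      filter_upwards [e.open_target.mem_nhds hp] with q hq
      rw [hmat q hq]
    unfold pder at h1 ⊢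
    rw [h1.fderiv_eq]
    by_cases hij : i = j
    · subst hij
      simp
    · simp [Matrix.one_apply_ne hij]
  unfold lap
  rw [hdet p hp]
  simp only [hev, Fin.sum_univ_two]
  simp


/-- A smooth function on `M` is smooth in the charts of the maximal atlas. -/
theorem contDiffOn_comp_symm {e : OpenPartialHomeomorph M Plane}
    (he : e ∈ IsManifold.maximalAtlas (𝓡 2) ∞ M) {φ : M → ℝ}
    (hφ : ContMDiff (𝓡 2) 𝓘(ℝ, ℝ) ∞ φ) : ContDiffOn ℝ ∞ (fun y => φ (e.symm y)) e.target := by
  rw [← contMDiffOn_iff_contDiffOn]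
  exact hφ.comp_contMDiffOn (contMDiffOn_symm_of_mem_maximalAtlas he)

end

end Pool.Agent.H93.CS
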