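import Pool.Agent.H93.CS.Isothermal
import Pool.Agent.H93.CS.GoodExists
import Pool.Agent.H93.CS.Cls
import Pool.Agent.H93.CS.AbsSum

set_option autoImplicit false

/-!
# The bounded average on closed surfaces from the local theorem
-/

open Manifold Bundle Metric Set
open scoped ContDiff Topology

noncomputable section

universe u

namespace Pool.Agent.H93.CS

lemma iSup_cls {M : Type*} [EMetricSpace M] {x₀ : M} (φ : M → ℝ) (y : Cls x₀) (r : ℝ) :
    (⨆ z : ball y r, |φ z.1.val|) = ⨆ z : disc y.val r, |φ z| := by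
  refine Function.Surjective.iSup_congr
    (fun z : ball y r => (⟨z.1.val, (mem_ball_cls _ _ _).1 z.2⟩ : disc y.val r)) ?_ fun z => rfl
  rintro ⟨w, hw⟩
  have hfin : edist w y.val < ⊤ := lt_trans (show edist w y.val < ENNReal.ofReal r from hw)
    ENNReal.ofReal_lt_top
  exact ⟨⟨y.mk' w hfin, (mem_ball_cls _ _ _).2 hw⟩, rfl⟩

lemma doublingIndex_cls {M : Type*} [EMetricSpace M] {x₀ : M} (φ : M → ℝ) (y : Cls x₀) (r : ℝ) :
    Pool.Agent.H94.Geo.doublingIndex (fun z : Cls x₀ => φ z.val) y r =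
      doublingIndex φ y.val r := by
  unfold Pool.Agent.H94.Geo.doublingIndex doublingIndex
  rw [iSup_cls, iSup_cls]

lemma doublingIndex_zero {M : Type*} [EMetricSpace M] {φ : M → ℝ} {x : M} {r : ℝ}
    (h : ∀ y ∈ disc x (2 * r), φ y = 0) : doublingIndex φ x r = 0 := by
  unfold doublingIndex
  have h1 : (⨆ y : disc x (2 * r), |φ y|) = 0 := by
    apply le_antisymm
    · exact Real.iSup_le (fun y => by rw [h y y.2, abs_zero]) le_rfl
    · exact Real.iSup_nonneg fun _ => abs_nonneg _
  rw [h1, zero_div, Real.logb_zero]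

/-- The local theorem implies the bounded average of the doubling index on closed surfaces. -/
theorem q1_of_locB (hB : Pool.Agent.H94.Geo.LocB) : Q1.{u} := by
  classical
  intro M _ _ _ _ _ _ _ C C₁ C₂ hC _ hC₂
  have hG : ∀ x : M,
      Nonempty (GoodChart (fun (lam : ℝ) (φ : M → ℝ) => IsEigenfunction lam φ) x) := by
    intro x
    obtain ⟨e, he, hx, w, hw, hiso⟩ := exists_isothermal x
    exact exists_goodChart he hw hiso hx
  -- one class
  have hcls : ∀ x₀ : M, ∃ A : ℝ, 0 ≤ A ∧ ∀ lam : ℝ, 0 < lam → ∀ φ : M → ℝ,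
      IsEigenfunction lam φ → ∀ (ι : Type) [Fintype ι] (c : ι → M) (L : ℝ),
      (∀ y : M, ({i | y ∈ disc (c i) (C / √lam)}.ncard : ℝ) ≤ L) → ∀ J : Finset ι,
      (∀ i ∈ J, c i ∈ eball x₀ ⊤) →
      ∑ i ∈ J, doublingIndex φ (c i) (C / √lam) ≤ A * (L * lam + Fintype.card ι) := by
    intro x₀
    have hpre : PreconnectedSpace (Cls x₀) := preconnectedSpace_cls x₀
    obtain ⟨A, hA0, hA⟩ := abstract_sum (X := Cls x₀)
      (P := PK (fun (lam : ℝ) (φ : M → ℝ) => IsEigenfunction lam φ) x₀)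
      (fun lam ψ h => by
        obtain ⟨hne, φ, hφ, hψ⟩ := h
        refine ⟨?_, hne⟩
        have h1 : ψ = fun y => φ y.val := funext hψ
        rw [h1]
        exact hφ.smooth.continuous.comp (continuous_val x₀))
      (fun x => cls_goodChart x (hG x.val).some) hB hC
    refine ⟨A, hA0, ?_⟩
    intro lam hlam φ hφ ι _ c L hover J hJ
    have hL : 0 ≤ L := by
      obtain ⟨x, -⟩ := hφ.ne_zero
      exact le_trans (Nat.cast_nonneg _) (hover x)
    have hLn : 0 ≤ L * lam := mul_nonneg hL hlam.le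
    by_cases hz : ∀ y : Cls x₀, φ y.val = 0
    · have h0 : ∑ i ∈ J, doublingIndex φ (c i) (C / √lam) = 0 := by
        apply Finset.sum_eq_zero
        intro i hi
        apply doublingIndex_zero
        intro y hy
        have hy' : edist y (c i) < ⊤ :=
          lt_trans (show edist y (c i) < ENNReal.ofReal _ from hy) ENNReal.ofReal_lt_top
        exact hz ⟨y, (edist_triangle y (c i) x₀).trans_lt
          (ENNReal.add_lt_top.2 ⟨hy', hJ i hi⟩)⟩
      rw [h0]
      exact mul_nonneg hA0 (add_nonneg hLn (Nat.cast_nonneg _))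
    · have hne : ∃ y : Cls x₀, φ y.val ≠ 0 := by
        by_contra hcon
        exact hz fun y => by
          by_contra hy
          exact hcon ⟨y, hy⟩
      have h1 := hA lam hlam (fun y => φ y.val) ⟨hne, φ, hφ, fun _ => rfl⟩ J
        (fun i => (⟨c i, hJ i i.2⟩ : Cls x₀)) L (by
          intro y
          refine le_trans ?_ (hover y.val)
          rw [Nat.cast_le]
          refine Set.ncard_le_ncard_of_injOn (fun i : J => (i : ι)) ?_
            (Subtype.val_injective.injOn) (Set.toFinite _)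
          intro i hi
          exact (mem_ball_cls _ _ _).1 hi)
      simp only [doublingIndex_cls] at h1
      have h2 : ∑ i : J, doublingIndex φ (c i) (C / √lam) =
          ∑ i ∈ J, doublingIndex φ (c i) (C / √lam) :=
        Finset.sum_coe_sort J fun i => doublingIndex φ (c i) (C / √lam)
      rw [← h2]
      refine le_trans h1 (mul_le_mul_of_nonneg_left ?_ hA0)
      have h3 : (Fintype.card J : ℝ) ≤ Fintype.card ι := by
        rw [Fintype.card_coe]
        exact_mod_cast Finset.card_le_univ J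
      linarith
  choose A hA0 hA using hcls
  obtain ⟨t, ht⟩ := CompactSpace.elim_nhds_subcover (fun x : M => eball x ⊤)
    (fun x => eball_mem_nhds x ENNReal.zero_lt_top)
  refine ⟨(∑ x ∈ t, A x) * (C₁ * C₂ + 1), ?_⟩
  intro lam hlam φ hφ ι _ c hadm
  have hcard : 0 < (Fintype.card ι : ℝ) :=
    lt_of_lt_of_le (mul_pos (inv_pos.2 hC₂) hlam) hadm.le_card
  have hC₁ : 0 ≤ C₁ := by
    obtain ⟨x, -⟩ := hφ.ne_zero
    exact le_trans (Nat.cast_nonneg _) (hadm.overlap x)
  have hsum0 : 0 ≤ ∑ x ∈ t, A x := Finset.sum_nonneg fun x _ => hA0 x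
  rw [div_le_iff₀ hcard]
  have hex : ∀ i : ι, ∃ x ∈ t, c i ∈ eball x ⊤ := by
    intro i
    have h3 : c i ∈ ⋃ x ∈ t, eball x ⊤ := by
      rw [ht]
      trivial
    rw [mem_iUnion₂] at h3
    obtain ⟨x, hx, hx'⟩ := h3
    exact ⟨x, hx, hx'⟩
  choose xx hxx hxx' using hex
  have h1 : ∑ i, doublingIndex φ (c i) (C / √lam) ≤
      ∑ x ∈ t, A x * (C₁ * lam + Fintype.card ι) := by
    rw [← Finset.sum_fiberwise_of_maps_to (g := xx) (t := t) (fun i _ => hxx i)]
    apply Finset.sum_le_sum
    intro x hx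
    refine hA x lam hlam φ hφ ι c C₁ hadm.overlap (Finset.univ.filter fun i => xx i = x) ?_
    intro i hi
    have := hxx' i
    rwa [(Finset.mem_filter.1 hi).2] at this
  refine h1.trans ?_
  have h3 : lam ≤ C₂ * Fintype.card ι := by
    have := hadm.le_card
    rwa [inv_mul_le_iff₀ hC₂] at this
  have h4 : C₁ * lam ≤ C₁ * (C₂ * Fintype.card ι) := mul_le_mul_of_nonneg_left h3 hC₁
  calc ∑ x ∈ t, A x * (C₁ * lam + Fintype.card ι) =
        (∑ x ∈ t, A x) * (C₁ * lam + Fintype.card ι) := by rw [Finset.sum_mul]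
    _ ≤ (∑ x ∈ t, A x) * (C₁ * (C₂ * Fintype.card ι) + Fintype.card ι) :=
        mul_le_mul_of_nonneg_left (by linarith) hsum0
    _ = (∑ x ∈ t, A x) * (C₁ * C₂ + 1) * Fintype.card ι := by ring

end Pool.Agent.H93.CS
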