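import Pool.Agent.H93.CS.Public
import Pool.Agent.H93.CS.Invar

set_option autoImplicit false

/-!
# The two versions of the definitions agree
-/

open Manifold Bundle
open scoped ContDiff Topology

noncomputable section

universe u

namespace Pool.Agent.H93.Surface

/-- `Q1` in terms of the definitions of `Pool.Agent.H93.Surface`. -/
theorem of_Q1 (h : Pool.Agent.H93.CS.Q1.{u}) (M : Type u) [i1 : EMetricSpace M]
    [i2 : ChartedSpace Plane M] [i3 : IsManifold model ∞ M]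
    [i4 : RiemannianBundle (fun x : M => TangentSpace model x)]
    [i5 : IsContMDiffRiemannianBundle model ∞ Plane (fun x : M => TangentSpace model x)]
    [i6 : IsRiemannianManifold model M] [i7 : CompactSpace M] (C C₁ C₂ : ℝ) (hC : 0 < C)
    (hC₁ : 0 < C₁) (hC₂ : 0 < C₂) :
    ∃ A : ℝ, ∀ (lam : ℝ), 0 < lam → ∀ φ : M → ℝ, IsEigenfunction lam φ →
      ∀ (ι : Type) [Fintype ι] (c : ι → M), IsAdmissible φ lam C C₁ C₂ c →
        (∑ i, doublingIndex φ (c i) (C / √lam)) / Fintype.card ι ≤ A := by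
  unfold Pool.Agent.H93.CS.Q1 at h
  let j2 : ChartedSpace (EuclideanSpace ℝ (Fin 2)) M := i2
  let j3 : IsManifold (𝓡 2) ∞ M := i3
  let j4 : RiemannianBundle (fun x : M => TangentSpace (𝓡 2) x) := i4
  let j5 : IsContMDiffRiemannianBundle (𝓡 2) ∞ (EuclideanSpace ℝ (Fin 2))
    (fun x : M => TangentSpace (𝓡 2) x) := i5
  let j6 : IsRiemannianManifold (𝓡 2) M := i6
  obtain ⟨A, hA⟩ := h M C C₁ C₂ hC hC₁ hC₂
  refine ⟨A, fun lam hlam φ hφ ι _ c hc => ?_⟩
  exact hA lam hlam φ ⟨hφ.smooth, hφ.ne_zero, hφ.equation⟩ ι c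
    ⟨hc.cover, hc.le_card, hc.card_le, hc.overlap, hc.zero⟩

/-- The Laplace-Beltrami operator can be computed in every smooth chart. -/
theorem laplacian_eq_lap {M : Type u} [i1 : TopologicalSpace M]
    [i2 : ChartedSpace Plane M] [i3 : IsManifold model ∞ M]
    [i4 : RiemannianBundle (fun x : M => TangentSpace model x)]
    [i5 : IsContMDiffRiemannianBundle model ∞ Plane (fun x : M => TangentSpace model x)]
    {e : OpenPartialHomeomorph M Plane} (he : e ∈ IsManifold.maximalAtlas model ∞ M)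
    {φ : M → ℝ} (hφ : ContMDiff model 𝓘(ℝ, ℝ) ∞ φ) {x : M} (hx : x ∈ e.source) :
    laplacian φ x = lap e φ (e x) := by
  let j2 : ChartedSpace (EuclideanSpace ℝ (Fin 2)) M := i2
  let j3 : IsManifold (𝓡 2) ∞ M := i3
  let j4 : RiemannianBundle (fun x : M => TangentSpace (𝓡 2) x) := i4
  let j5 : IsContMDiffRiemannianBundle (𝓡 2) ∞ (EuclideanSpace ℝ (Fin 2))
    (fun x : M => TangentSpace (𝓡 2) x) := i5
  let e' : OpenPartialHomeomorph M (EuclideanSpace ℝ (Fin 2)) := e
  have he' : e' ∈ IsManifold.maximalAtlas (𝓡 2) ∞ M := he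
  have hφ' : ContMDiff (𝓡 2) 𝓘(ℝ, ℝ) ∞ φ := hφ
  exact Pool.Agent.H93.CS.lap_invariant
    (IsManifold.chart_mem_maximalAtlas (I := 𝓡 2) (n := ∞) x) he' hφ'
    (mem_chart_source (EuclideanSpace ℝ (Fin 2)) x) hx

end Pool.Agent.H93.Surface
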