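import Pool.Agent.H93.CS.Assembly
import Pool.Agent.H93.CS.Bridge
import Pool.Agent.H88.Yau.LocalSum
import Pool.Agent.H5.Yau.U2
import Pool.Agent.H5.Yau.U3
import Pool.Agent.H5.Yau.U4

set_option autoImplicit false

/-!
# The local theorem and the final theorem
-/

open Metric

noncomputable section

universe u

namespace Pool.Agent.H93.CS

/-- The local theorem. -/
theorem locB : Pool.Agent.H94.Geo.LocB := by
  refine ⟨16, by norm_num, ?_⟩
  intro W C₁ K k hW hC₁ hK hk _
  obtain ⟨C, N₀, h⟩ := Pool.Agent.H88.Yau.local_sum Pool.Agent.H5.Yau.u2 Pool.Agent.H5.Yau.u3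
    Pool.Agent.H5.Yau.u4 W C₁ K k hW (by linarith) hK hk
  refine ⟨C, N₀, ?_⟩
  intro N q u hN _ hsol hu hlow F hF
  rw [show (16 : ℝ) / 2 = 8 by norm_num] at hlow
  exact h N q u hN hsol hu hlow F hF

/-- The bounded average of the doubling index on closed surfaces, connected or not. -/
theorem q1 : Q1.{u} := q1_of_locB locB

end Pool.Agent.H93.CS
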