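import Pool.Agent.H93.CS.Public
import Pool.Agent.H94.Geo.Public

set_option autoImplicit false

/-!
# The connected case

For a surface whose distance is finite (a metric space, hence a connected surface) the definitions
of `Pool.Agent.H93.Surface` are those of `Pool.Agent.H94.Surface`, and the theorem for all closed
surfaces contains the theorem for connected ones.
-/

open Manifold Bundle
open scoped ContDiff Topology

noncomputable section

universe u

namespace Pool.Agent.H93.Surface

theorem disc_eq_ball {M : Type u} [MetricSpace M] (x : M) (r : ℝ) : disc x r = Metric.ball x r :=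
  Metric.eball_ofReal

theorem doublingIndex_eq {M : Type u} [MetricSpace M] (φ : M → ℝ) (x : M) (r : ℝ) :
    doublingIndex φ x r = Pool.Agent.H94.Surface.doublingIndex φ x r := by
  unfold doublingIndex Pool.Agent.H94.Surface.doublingIndex
  rw [disc_eq_ball, disc_eq_ball]

/-- The theorem for all closed surfaces contains the theorem for connected closed surfaces. -/
theorem special
    (h : ∀ (M : Type u) [EMetricSpace M] [ChartedSpace Plane M] [IsManifold model ∞ M]
      [RiemannianBundle (fun x : M => TangentSpace model x)]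
      [IsContMDiffRiemannianBundle model ∞ Plane (fun x : M => TangentSpace model x)]
      [IsRiemannianManifold model M] [CompactSpace M] (C C₁ C₂ : ℝ), 0 < C → 0 < C₁ → 0 < C₂ →
      ∃ A : ℝ, ∀ (lam : ℝ), 0 < lam → ∀ φ : M → ℝ, IsEigenfunction lam φ →
        ∀ (ι : Type) [Fintype ι] (c : ι → M), IsAdmissible φ lam C C₁ C₂ c →
          (∑ i, doublingIndex φ (c i) (C / √lam)) / Fintype.card ι ≤ A)
    (M : Type u) [MetricSpace M] [i2 : ChartedSpace Pool.Agent.H94.Surface.Plane M]
    [i3 : IsManifold Pool.Agent.H94.Surface.model ∞ M]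
    [i4 : RiemannianBundle (fun x : M => TangentSpace Pool.Agent.H94.Surface.model x)]
    [i5 : IsContMDiffRiemannianBundle Pool.Agent.H94.Surface.model ∞ Pool.Agent.H94.Surface.Plane
      (fun x : M => TangentSpace Pool.Agent.H94.Surface.model x)]
    [i6 : IsRiemannianManifold Pool.Agent.H94.Surface.model M] [CompactSpace M] (C C₁ C₂ : ℝ) (hC : 0 < C)
    (hC₁ : 0 < C₁) (hC₂ : 0 < C₂) :
    ∃ A : ℝ, ∀ (lam : ℝ), 0 < lam → ∀ φ : M → ℝ, Pool.Agent.H94.Surface.IsEigenfunction lam φ →
      ∀ (ι : Type) [Fintype ι] (c : ι → M), Pool.Agent.H94.Surface.IsAdmissible φ lam C C₁ C₂ c →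
        (∑ i, Pool.Agent.H94.Surface.doublingIndex φ (c i) (C / √lam)) / Fintype.card ι ≤ A := by
  let j2 : ChartedSpace Plane M := i2
  let j3 : IsManifold model ∞ M := i3
  let j4 : RiemannianBundle (fun x : M => TangentSpace model x) := i4
  let j5 : IsContMDiffRiemannianBundle model ∞ Plane (fun x : M => TangentSpace model x) := i5
  let j6 : IsRiemannianManifold model M := i6
  obtain ⟨A, hA⟩ := h M C C₁ C₂ hC hC₁ hC₂
  refine ⟨A, fun lam hlam φ hφ ι _ c hc => ?_⟩
  have h1 := hA lam hlam φ ⟨hφ.smooth, hφ.ne_zero, hφ.equation⟩ ι c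
    ⟨by simpa only [disc_eq_ball] using hc.cover, hc.le_card, hc.card_le,
      by simpa only [disc_eq_ball] using hc.overlap, hc.zero⟩
  simpa only [doublingIndex_eq] using h1

end Pool.Agent.H93.Surface
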